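import Pool.Agent.helper80.EN.Spec2

/-!
# MP_43ab4e_al: row TEG (elliptic left Engel elements)
-/

set_option autoImplicit false

namespace Pool.Agent.helper80.EN

open Subgroup

universe u

theorem TEG_icom_conj {G : Type u} [Group G] (x a g : G) :
    ∀ n : ℕ, icom x (g⁻¹ * a * g) n = g⁻¹ * icom (g * x * g⁻¹) a n * g := by
  intro n
  induction n with
  | zero =>
    show x = g⁻¹ * (g * x * g⁻¹) * g
    group
  | succ n ih =>
    show com (icom x (g⁻¹ * a * g) n) (g⁻¹ * a * g) =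
      g⁻¹ * com (icom (g * x * g⁻¹) a n) a * g
    rw [ih]
    unfold com
    group

theorem TEG_leftEngel_conj {G : Type u} [Group G] (a g : G) (ha : LeftEngel a) :
    LeftEngel (g⁻¹ * a * g) := by
  intro x
  obtain ⟨n, hn⟩ := ha (g * x * g⁻¹)
  refine ⟨n, ?_⟩
  rw [TEG_icom_conj, hn]
  group

theorem TEG_icom_map {G H : Type u} [Group G] [Group H] (f : G →* H) (x y : G) :
    ∀ n : ℕ, f (icom x y n) = icom (f x) (f y) n := by
  intro n
  induction n with
  | zero => rfl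
  | succ n ih =>
    show f (com (icom x y n) y) = com (icom (f x) (f y) n) (f y)
    rw [← ih]
    unfold com
    simp only [map_mul, map_inv]

theorem TEG_leftEngel_inj {G H : Type u} [Group G] [Group H] (f : G →* H)
    (hf : Function.Injective f) (a : G) (ha : LeftEngel (f a)) : LeftEngel a := by
  intro x
  obtain ⟨n, hn⟩ := ha (f x)
  refine ⟨n, hf ?_⟩
  rw [TEG_icom_map, hn, map_one]

theorem TEG (hCNC : CNC_stmt.{u}) (hTEL : TEL_stmt.{u}) (hTHL : THL_stmt.{u})
    (hTRF : TRF_stmt.{u}) (hHPR : HPR_stmt.{u}) : TEG_stmt.{u} := by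
  intro G V _ _ d hAct hE a ha hell
  refine hCNC G a ?_
  intro S
  rcases S.eq_empty_or_nonempty with hS | hS
  · subst hS
    have h0 : closure {x : G | ∃ g ∈ (∅ : Finset G), x = g⁻¹ * a * g} = ⊥ := by
      have h1 : {x : G | ∃ g ∈ (∅ : Finset G), x = g⁻¹ * a * g} = ∅ := by
        ext x
        simp
      rw [h1, Subgroup.closure_empty]
    rw [h0]
    infer_instance
  obtain ⟨h1, _, _, h4⟩ := hTEL G V d hAct
  obtain ⟨v, hv⟩ := hTHL V d hAct.tm G S (fun g => {v : V | (g⁻¹ * a * g) • v = v}) hS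
    (fun g _ => h1 (g⁻¹ * a * g)) (by
      intro g _ h _
      obtain ⟨w, hw1, hw2⟩ := h4 a ha hell (g * h⁻¹)
      refine ⟨h⁻¹ • w, ?_, ?_⟩
      · show (g⁻¹ * a * g) • h⁻¹ • w = h⁻¹ • w
        have e1 : (g⁻¹ * a * g) • h⁻¹ • w = h⁻¹ • (((g * h⁻¹)⁻¹ * a * (g * h⁻¹)) • w) := by
          rw [smul_smul, smul_smul]
          congr 1
          group
        rw [e1, hw2]
      · show (h⁻¹ * a * h) • h⁻¹ • w = h⁻¹ • w
        have e1 : (h⁻¹ * a * h) • h⁻¹ • w = h⁻¹ • (a • w) := by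
          rw [smul_smul, smul_smul]
          congr 1
          group
        rw [e1, hw1])
  obtain ⟨B, hB⟩ : ∃ B : Subgroup G, B = MulAction.stabilizer G v := ⟨_, rfl⟩
  have hEB : E B := by rw [hB]; exact hE v
  obtain ⟨_, t2, _⟩ := hTRF (⊤ : Subgroup B)
  have hloc : LocNilp ((HP (⊤ : Subgroup B)).map (B.subtype.comp (⊤ : Subgroup B).subtype)) :=
    t2 G _ _ (hHPR (⊤ : Subgroup B)).2.1
  refine hloc _ ?_ ?_
  · classical
    refine ⟨S.image (fun g => g⁻¹ * a * g), ?_⟩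
    congr 1
    ext x
    simp only [Finset.coe_image, Set.mem_image, Finset.mem_coe]
    constructor
    · rintro ⟨g, hg, rfl⟩
      exact ⟨g, hg, rfl⟩
    · rintro ⟨g, hg, rfl⟩
      exact ⟨g, hg, rfl⟩
  · rw [Subgroup.closure_le]
    rintro x ⟨g, hg, rfl⟩
    have hmem : g⁻¹ * a * g ∈ B := by
      rw [hB]
      exact hv g hg
    refine ⟨⟨⟨g⁻¹ * a * g, hmem⟩, Subgroup.mem_top _⟩, ?_, rfl⟩
    refine hEB ⊤ _ ?_
    refine TEG_leftEngel_inj (B.subtype.comp (⊤ : Subgroup B).subtype) ?_ _ ?_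
    · intro y z hyz
      exact Subtype.ext (Subtype.ext hyz)
    · exact TEG_leftEngel_conj a g ha

end Pool.Agent.helper80.EN
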